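import Pool.Agent.TH791.QD.Loc5
import Mathlib.Probability.Distributions.Gaussian.Real

/-!
# Gaussian disorder: almost all states are delocalized beyond the kinetic scale

`H_σ = Δ + σ ξ` on `ℤ^d`, `d ≥ 3`, `(Δψ)(x) = ∑_{|y-x|=1} ψ(y)`, iid standard Gaussian `ξ`, or iid
`ξ` with any law with exponential tails `P(|ξ(x)| > r) ≤ A exp(-r)`, mean `M` and variance
`V ≥ v > 0` (no regularity, no symmetry). Let `t = |σ|^{81/40}`, `ℓ = |σ|^{-2.01}`, which is beyond
the kinetic length `σ^{-2}`, `R = exp(|σ|^{-1/150})` and `ε = |σ|^{1/10000}`, which vanishes as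
`σ → 0`. For every `δ > 0` there are `c, s₀ > 0`, depending only on `d, A, v, δ`, such that for
`0 < |σ| ≤ s₀`, with probability at least `1 - 1/R`, simultaneously for all bulk energies
`|E| ≤ 2d - δ`:

(i) the local density of states on the scale `t` is bounded below, `Im ⟨δ_a, (H_σ - E - it)⁻¹ δ_a⟩
≥ c`, at all `|a| ≤ R`;

(ii) for every ball of radius `ℓ` contained in the box of radius `R` and every subset `B` of the
ball: every orthonormal family of eigenfunctions of `H_σ` on `ℓ²(ℤ^d)` with eigenvalues in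
`[E - t, E + t]`, each with at least the fraction `ε` of its mass in `B`, has at most
`ε t |B|` elements.

The number of states of `B` in the window `[E - t, E + t]` is of order `t |B|`. So all but a
vanishing fraction of the states have only a vanishing fraction of their mass in the ball, of
radius `ℓ ≫ σ^{-2}`, in every ball and on every window of energies of size `t ≪ σ²`.
-/

set_option autoImplicit false

open scoped BigOperators ENNReal Topology
open MeasureTheory ProbabilityTheory Filter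

namespace Pool.Agent.Results.MP_1906c1_mp.GaussianDelocalization

/-- `(H_σ ψ)(x) = ∑_{|y-x|=1} ψ(y) + σ ξ(x) ψ(x)` -/
noncomputable def H {d : ℕ} (σ : ℝ) (ξ : (Fin d → ℤ) → ℝ) (ψ : (Fin d → ℤ) → ℂ)
    (x : Fin d → ℤ) : ℂ :=
  ∑ i : Fin d, (ψ (x + Pi.single i 1) + ψ (x - Pi.single i 1)) + ((σ * ξ x : ℝ) : ℂ) * ψ x

/-- `u = (H_σ - z)⁻¹ δ_a`: `u` is square summable and `(H_σ - z) u = δ_a` -/
def IsGreen {d : ℕ} (σ : ℝ) (ξ : (Fin d → ℤ) → ℝ) (z : ℂ) (a : Fin d → ℤ)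
    (u : (Fin d → ℤ) → ℂ) : Prop :=
  (Summable fun x => ‖u x‖ ^ 2) ∧ ∀ x, H σ ξ u x - z * u x = if x = a then 1 else 0

/-- exponential tails -/
def ExpTails (μ : Measure ℝ) (A : ℝ) : Prop :=
  ∀ r : ℝ, 0 ≤ r → μ.real {s | r < |s|} ≤ A * Real.exp (-r)

/-- the standard Gaussian law has exponential tails -/
theorem gauss_tails : ExpTails (gaussianReal 0 1) 4 := by
  intro r _
  have h1 : (gaussianReal 0 1).real {s : ℝ | r ≤ id s} ≤ Real.exp (-1 * r) *
      mgf id (gaussianReal 0 1) 1 :=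
    measure_ge_le_exp_mul_mgf r zero_le_one (by
      simpa using integrable_exp_mul_gaussianReal (μ := 0) (v := 1) 1)
  have h2 : (gaussianReal 0 1).real {s : ℝ | id s ≤ -r} ≤ Real.exp (-(-1) * (-r)) *
      mgf id (gaussianReal 0 1) (-1) :=
    measure_le_le_exp_mul_mgf (-r) (by norm_num) (by
      simpa using integrable_exp_mul_gaussianReal (μ := 0) (v := 1) (-1))
  rw [mgf_id_gaussianReal] at h1 h2
  have h3 : {s : ℝ | r < |s|} ⊆ {s : ℝ | r ≤ id s} ∪ {s : ℝ | id s ≤ -r} := by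
    intro s hs
    rw [Set.mem_ofPred_eq, lt_abs] at hs
    rcases hs with hs | hs
    · left
      exact hs.le
    · right
      simp only [Set.mem_ofPred_eq, id]
      linarith
  have h4 := (measureReal_mono (μ := gaussianReal 0 1) h3 (measure_ne_top _ _)).trans
    (measureReal_union_le _ _)
  have h5 : Real.exp (1 / 2) ≤ 2 := by
    have e1 : Real.exp (1 / 2) * Real.exp (1 / 2) = Real.exp 1 := by
      rw [← Real.exp_add]
      norm_num
    have e2 := Real.exp_one_lt_d9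
    nlinarith [Real.exp_pos (1 / 2 : ℝ)]
  have h6 : 0 < Real.exp (-r) := Real.exp_pos _
  norm_num at h1 h2
  simp only [id] at h4
  nlinarith

theorem gauss_mean : ∫ s, s ∂(gaussianReal 0 1) = 0 := by
  simp

theorem gauss_var : ∫ s, (s - 0) ^ 2 ∂(gaussianReal 0 1) = 1 := by
  have h1 := variance_id_gaussianReal (μ := 0) (v := 1)
  rw [variance_eq_integral (by fun_prop)] at h1
  simpa using h1

theorem green_iff {d : ℕ} (σ : ℝ) (ξ : (Fin d → ℤ) → ℝ) (z : ℂ) (a : Fin d → ℤ)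
    (u : (Fin d → ℤ) → ℂ) :
    IsGreen σ ξ z a u ↔ Pool.Agent.TH791.QD.GS d (fun x => σ * ξ x) z a u :=
  ⟨fun h => ⟨h.1, h.2⟩, fun h => ⟨h.ss, h.eq⟩⟩

/-- **Theorem.** The standard Gaussian law has exponential tails with `A = 4`, mean `0` and
variance `1`. For all laws with exponential tails, of mean `M` and variance `V ≥ v`, at weak
disorder: in every ball of radius `|σ|^{-2.01}` and every window of bulk energies of size
`|σ|^{81/40}`, only a vanishing fraction of the states can have a fraction `ε = |σ|^{1/10000}` of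
their mass in the ball. -/
theorem result :
    (ExpTails (gaussianReal 0 1) 4 ∧ ∫ s, s ∂(gaussianReal 0 1) = 0 ∧
      ∫ s, (s - 0) ^ 2 ∂(gaussianReal 0 1) = 1) ∧
    ∀ (d : ℕ), 3 ≤ d → ∀ A v δ : ℝ, 0 < A → 0 < v → 0 < δ →
      ∃ c : ℝ, 0 < c ∧ ∃ s0 : ℝ, 0 < s0 ∧
      ∀ (μ : Measure ℝ) [IsProbabilityMeasure μ], ExpTails μ A →
      ∀ M V : ℝ, ∫ s, s ∂μ = M → ∫ s, (s - M) ^ 2 ∂μ = V → v ≤ V →
      ∀ σ : ℝ, 0 < |σ| → |σ| ≤ s0 → ∀ t ℓ R ε : ℝ, t = |σ| ^ (81 / 40 : ℝ) →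
      ℓ = |σ| ^ (-(201 / 100) : ℝ) → R = Real.exp (|σ| ^ (-(1 / 150) : ℝ)) →
      ε = |σ| ^ (1 / 10000 : ℝ) →
      ∃ G : Set ((Fin d → ℤ) → ℝ), MeasurableSet G ∧
        1 - 1 / R ≤ (Measure.infinitePi fun _ : Fin d → ℤ => μ).real G ∧
        ∀ ξ ∈ G, ∀ E : ℝ, |E| ≤ 2 * d - δ →
          (∀ (a : Fin d → ℤ) (u : (Fin d → ℤ) → ℂ), ‖a‖ ≤ R →
            IsGreen σ ξ (E + t * Complex.I) a u → c ≤ (u a).im) ∧
          ∀ (b : Fin d → ℤ) (B : Finset (Fin d → ℤ)), ‖b‖ + ℓ ≤ R → (∀ x ∈ B, ‖x - b‖ ≤ ℓ) →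
            ∀ (n : ℕ) (φ : Fin n → lp (fun _ : Fin d → ℤ => ℂ) 2) (ev : Fin n → ℝ),
              Orthonormal ℂ φ →
              (∀ k x, H σ ξ (φ k) x = ev k * φ k x) → (∀ k, |ev k - E| ≤ t) →
              (∀ k, ε ≤ ∑ x ∈ B, ‖φ k x‖ ^ 2) → (n : ℝ) ≤ ε * (t * B.card) := by
  refine ⟨⟨gauss_tails, gauss_mean, gauss_var⟩, ?_⟩
  intro d hd A v δ hA hv hδ
  obtain ⟨c, hc, s0, hs0, h⟩ := Pool.Agent.TH791.QD.locG d hd A v δ hA hv hδ
  refine ⟨c, hc, s0, hs0, ?_⟩
  intro μ hμ htail M V hM hV hvV σ hσ hσ0 t ℓ R ε ht hℓ hR hε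
  obtain ⟨G, hG, hP, hb⟩ := h μ hμ htail M V hM hV hvV σ hσ hσ0 t ht
  refine ⟨G, hG, ?_, ?_⟩
  · rw [hR, one_div, ← Real.exp_neg]
    exact hP
  · intro ξ hξ E hE
    obtain ⟨h1, h2⟩ := hb ξ hξ
    refine ⟨fun a u ha hu => ?_, fun b B hbB hB n φ ev hφ heig hev hmass => ?_⟩
    · rw [hR] at ha
      exact h1 a E u ha hE ((green_iff _ _ _ _ _).1 hu)
    · rw [hR, hℓ] at hbB
      rw [hℓ] at hB
      rw [hε] at hmass ⊢
      exact h2 b E B hB hbB hE n φ ev hφ hev heig hmass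

end Pool.Agent.Results.MP_1906c1_mp.GaussianDelocalization
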