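import Pool.Agent.TH791.QD.TauD
import Pool.Agent.TH791.QD.Pos
import Pool.Agent.TH791.QD.Evol
import Mathlib.Probability.Distributions.Gaussian.Real

/-!
# Gaussian disorder: quenched quantum diffusion

`H_σ = Δ + σ ξ` on `ℤ^d`, `d ≥ 3`, `(Δψ)(x) = ∑_{|y-x|=1} ψ(y)`, iid standard Gaussian `ξ`, or iid
`ξ` with any law with exponential tails `P(|ξ(x)| > r) ≤ A exp(-r)`, mean `M` and variance
`V ≥ v > 0` (no regularity, no symmetry). Let `t = |σ|^{81/40}`, which is far below the kinetic scale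
`σ²`, and `T = 1/(2t)`, which is far beyond the kinetic time `σ^{-2}`. There is `s₀ > 0`, depending
only on `d, A, v, c, ε, g`, such that for `0 < |σ| ≤ s₀`, with probability at least
`1 - exp(-|σ|^{-1/160})`, simultaneously for all starting points `|a| ≤ exp(|σ|^{-1/160})`, the
following hold.

(i) Ladder law at all frequencies. For all energies `E` and `u = (H_σ - E - it)⁻¹ δ_a`, with `γ` the
solution of the self-consistent Born equation `γ = ⟨δ_0, w⟩`,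
`w = (Δ - (E - σM + it + σ²V γ))⁻¹ δ_0`, with `Im γ ≥ c`, and all `q ∈ ℝ^d`,
`|t ∑_x e^{iq(x-a)} |u(x)|² - (t / σ²V) p̂(q) / (1 - p̂(q))| ≤ |σ|^{1/100}`, where
`p̂(q) = σ²V ∑_x cos(qx) |w(x)|²`: the position has the law of a random walk with step law
`σ²V |w|²` killed with probability `1 - p̂(0)` at each step.

(ii) Diffusive limit. If `ρ₀(E) ≥ c`, then
`|t ∑_x exp(i √(tσ²V) κ(x-a)) |u(x)|² - ρ₀(E) / (1 + |κ|² ρ₁(E) / ρ₀(E)²)| ≤ |σ|^{1/200}` for all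
`|κ|² ≤ |σ|^{-1/500}`. Here `ρ₀(E) = Im ⟨δ_0, (Δ - E - i0)⁻¹ δ_0⟩` and `ρ₁(E) / ρ₀(E)` is the mean
of `sin² 2πk_1` over the energy surface `∑ 2 cos 2πk_i = E`. It is bounded below on
`|E| ≤ 2d - δ`, for every `δ > 0`.

(iii) Quantum diffusion in time. For `ψ_s = e^{-isH} δ_a`, every continuous `g` on `[0, ∞)` for
which `e^τ g(τ)` has a limit at infinity, such as every continuous `g` of compact support, and all
`|κ|² ≤ |σ|^{-1/500}`,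
`|∫_0^∞ g(τ) ∑_x exp(i √(tσ²V) κ(x-a)) |ψ_{Tτ}(x)|² dτ -
  ∫_0^∞ g(τ) (1/π) ∫ ρ₀(E) exp(-τ |κ|² ρ₁(E) / ρ₀(E)²) dE dτ| ≤ ε`:
at the macroscopic time `τ` the position is diffusive, with the Boltzmann diffusion constant
`2 ρ₁(E) / (σ²V ρ₀(E)²)` at energy `E`, and the energy has the density `ρ₀ / π`.
-/

set_option autoImplicit false

open scoped BigOperators ENNReal Topology
open MeasureTheory ProbabilityTheory Filter

namespace Pool.Agent.Results.MP_1906c1_mp.GaussianQuantumDiffusion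

/-- `(H_σ ψ)(x) = ∑_{|y-x|=1} ψ(y) + σ ξ(x) ψ(x)` -/
noncomputable def H {d : ℕ} (σ : ℝ) (ξ : (Fin d → ℤ) → ℝ) (ψ : (Fin d → ℤ) → ℂ)
    (x : Fin d → ℤ) : ℂ :=
  ∑ i : Fin d, (ψ (x + Pi.single i 1) + ψ (x - Pi.single i 1)) + ((σ * ξ x : ℝ) : ℂ) * ψ x

/-- `u = (H_σ - z)⁻¹ δ_a`: `u` is square summable and `(H_σ - z) u = δ_a` -/
def IsGreen {d : ℕ} (σ : ℝ) (ξ : (Fin d → ℤ) → ℝ) (z : ℂ) (a : Fin d → ℤ)
    (u : (Fin d → ℤ) → ℂ) : Prop :=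
  (Summable fun x => ‖u x‖ ^ 2) ∧ ∀ x, H σ ξ u x - z * u x = if x = a then 1 else 0

/-- the self-consistent Born equation `γ = ⟨δ_0, (Δ - z - s γ)⁻¹ δ_0⟩`, with
`w = (Δ - z - s γ)⁻¹ δ_0` -/
def IsBorn {d : ℕ} (z : ℂ) (s : ℝ) (γ : ℂ) (w : (Fin d → ℤ) → ℂ) : Prop :=
  0 < γ.im ∧ IsGreen 0 (fun _ => 0) (z + s * γ) 0 w ∧ w 0 = γ

/-- the Fourier transform of the position density: `∑_x e^{iq(x-a)} |u(x)|²` -/
noncomputable def posHat {d : ℕ} (u : (Fin d → ℤ) → ℂ) (a : Fin d → ℤ) (q : Fin d → ℝ) : ℂ :=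
  ∑' x, Complex.exp (Complex.I * ((∑ i, q i * ((x i : ℝ) - a i) : ℝ) : ℂ)) * ((‖u x‖ ^ 2 : ℝ) : ℂ)

/-- the Fourier transform `s ∑_x cos(qx) |w(x)|²` of the step law `s |w|²` -/
noncomputable def stepHat {d : ℕ} (s : ℝ) (w : (Fin d → ℤ) → ℂ) (q : Fin d → ℝ) : ℝ :=
  s * ∑' x : Fin d → ℤ, Real.cos (∑ i, q i * x i) * ‖w x‖ ^ 2

/-- `ψ` is the solution of `i ∂_s ψ = H_σ ψ`, `ψ_0 = δ_a`, of norm one in `ℓ²(ℤ^d)` -/
structure IsEvolution {d : ℕ} (σ : ℝ) (ξ : (Fin d → ℤ) → ℝ) (a : Fin d → ℤ)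
    (ψ : ℝ → (Fin d → ℤ) → ℂ) : Prop where
  init : ψ 0 = Pi.single a 1
  ode : ∀ s x, HasDerivAt (fun s => ψ s x) (-Complex.I * H σ ξ (ψ s) x) s
  norm : ∀ s, HasSum (fun x => ‖ψ s x‖ ^ 2) 1

/-- `∫_0^1 exp(-is · 2 cos 2πx) dx` -/
noncomputable def p0 (s : ℝ) : ℂ :=
  ∫ x in (0 : ℝ)..1, Complex.exp (Complex.I * ((-s * (2 * Real.cos (2 * Real.pi * x)) : ℝ) : ℂ))

/-- `∫_0^1 sin²(2πx) exp(-is · 2 cos 2πx) dx` -/
noncomputable def p1 (s : ℝ) : ℂ :=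
  ∫ x in (0 : ℝ)..1, ((Real.sin (2 * Real.pi * x) ^ 2 : ℝ) : ℂ) *
    Complex.exp (Complex.I * ((-s * (2 * Real.cos (2 * Real.pi * x)) : ℝ) : ℂ))

/-- `Im ∫_{[0,1]^d} (∑ 2 cos 2πk_i - E - i0)⁻¹ dk`, which is `π` times the density of states of
`Δ` -/
noncomputable def ρ0 (d : ℕ) (E : ℝ) : ℝ :=
  (Complex.I * ∫ s in Set.Ioi (0 : ℝ), p0 s ^ d * Complex.exp (Complex.I * (E : ℂ) * s)).im

/-- `Im ∫_{[0,1]^d} sin²(2πk_1) (∑ 2 cos 2πk_i - E - i0)⁻¹ dk` -/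
noncomputable def ρ1 (d : ℕ) (E : ℝ) : ℝ :=
  (Complex.I * ∫ s in Set.Ioi (0 : ℝ), p1 s * p0 s ^ (d - 1) *
    Complex.exp (Complex.I * (E : ℂ) * s)).im

/-- the diffusive profile `ρ₀ / (1 + K ρ₁ / ρ₀²)` -/
noncomputable def profile (d : ℕ) (K E : ℝ) : ℝ := ρ0 d E / (1 + K * ρ1 d E / ρ0 d E ^ 2)

/-- the characteristic function at the macroscopic time `τ` of the diffusion whose energy `E` has
the density `ρ₀ / π` and whose diffusion constant is proportional to `ρ₁ / ρ₀²` at energy `E` -/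
noncomputable def heat (d : ℕ) (K τ : ℝ) : ℝ :=
  1 / Real.pi * ∫ E in (-(3 * d : ℝ))..(3 * d), ρ0 d E * Real.exp (-τ * (K * ρ1 d E / ρ0 d E ^ 2))

/-- exponential tails -/
def ExpTails (μ : Measure ℝ) (A : ℝ) : Prop :=
  ∀ r : ℝ, 0 ≤ r → μ.real {s | r < |s|} ≤ A * Real.exp (-r)

/-- the standard Gaussian law has exponential tails -/
theorem gauss_tails : ExpTails (gaussianReal 0 1) 4 := by
  intro r _
  have h1 : (gaussianReal 0 1).real {s : ℝ | r ≤ id s} ≤ Real.exp (-1 * r) *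
      mgf id (gaussianReal 0 1) 1 :=
    measure_ge_le_exp_mul_mgf r zero_le_one (by
      simpa using integrable_exp_mul_gaussianReal (μ := 0) (v := 1) 1)
  have h2 : (gaussianReal 0 1).real {s : ℝ | id s ≤ -r} ≤ Real.exp (-(-1) * (-r)) *
      mgf id (gaussianReal 0 1) (-1) :=
    measure_le_le_exp_mul_mgf (-r) (by norm_num) (by
      simpa using integrable_exp_mul_gaussianReal (μ := 0) (v := 1) (-1))
  rw [mgf_id_gaussianReal] at h1 h2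
  have h3 : {s : ℝ | r < |s|} ⊆ {s : ℝ | r ≤ id s} ∪ {s : ℝ | id s ≤ -r} := by
    intro s hs
    rw [Set.mem_ofPred_eq, lt_abs] at hs
    rcases hs with hs | hs
    · left
      exact hs.le
    · right
      simp only [Set.mem_ofPred_eq, id]
      linarith
  have h4 := (measureReal_mono (μ := gaussianReal 0 1) h3 (measure_ne_top _ _)).trans
    (measureReal_union_le _ _)
  have h5 : Real.exp (1 / 2) ≤ 2 := by
    have e1 : Real.exp (1 / 2) * Real.exp (1 / 2) = Real.exp 1 := by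
      rw [← Real.exp_add]
      norm_num
    have e2 := Real.exp_one_lt_d9
    nlinarith [Real.exp_pos (1 / 2 : ℝ)]
  have h6 : 0 < Real.exp (-r) := Real.exp_pos _
  norm_num at h1 h2
  simp only [id] at h4
  nlinarith

theorem gauss_mean : ∫ s, s ∂(gaussianReal 0 1) = 0 := by
  simp

theorem gauss_var : ∫ s, (s - 0) ^ 2 ∂(gaussianReal 0 1) = 1 := by
  have h1 := variance_id_gaussianReal (μ := 0) (v := 1)
  rw [variance_eq_integral (by fun_prop)] at h1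
  simpa using h1

theorem green_iff {d : ℕ} (σ : ℝ) (ξ : (Fin d → ℤ) → ℝ) (z : ℂ) (a : Fin d → ℤ)
    (u : (Fin d → ℤ) → ℂ) :
    IsGreen σ ξ z a u ↔ Pool.Agent.TH791.QD.GS d (fun x => σ * ξ x) z a u :=
  ⟨fun h => ⟨h.1, h.2⟩, fun h => ⟨h.ss, h.eq⟩⟩

theorem green0_iff {d : ℕ} (z : ℂ) (a : Fin d → ℤ) (u : (Fin d → ℤ) → ℂ) :
    IsGreen 0 (fun _ => 0) z a u ↔ Pool.Agent.TH791.QD.GS d (fun _ => 0) z a u := by
  rw [green_iff]
  simp only [mul_zero]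

theorem evo_iff {d : ℕ} (σ : ℝ) (ξ : (Fin d → ℤ) → ℝ) (a : Fin d → ℤ)
    (ψ : ℝ → (Fin d → ℤ) → ℂ) :
    IsEvolution σ ξ a ψ ↔ Pool.Agent.TH791.QD.Evo d (fun x => σ * ξ x) a ψ := by
  constructor
  · intro h
    refine ⟨fun x => ?_, fun s x => h.ode s x, h.norm⟩
    rw [h.init]
    by_cases hx : x = a
    · rw [hx, Pi.single_eq_same, if_pos rfl]
    · rw [Pi.single_eq_of_ne hx, if_neg hx]
  · intro h
    refine ⟨?_, fun s x => h.ode s x, h.norm⟩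
    funext x
    rw [h.init]
    by_cases hx : x = a
    · rw [hx, Pi.single_eq_same, if_pos rfl]
    · rw [Pi.single_eq_of_ne hx, if_neg hx]

/-- **Theorem.** The standard Gaussian law has exponential tails with `A = 4`, mean `0` and
variance `1`. For `d ≥ 3` the Green function, the solution of the self-consistent Born equation and
the Schrödinger evolution exist and are unique, for all potentials. The densities satisfy
`0 ≤ ρ₁ ≤ ρ₀`, `∫ ρ₀ = π`, and `ρ₁` is bounded below on `|E| ≤ 2d - δ`. For all laws with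
exponential tails, of mean `M` and variance `V ≥ v`, quenched quantum diffusion holds: (i) the
ladder law at all frequencies, (ii) its diffusive limit at fixed energy, (iii) the diffusion at all
macroscopic times, against test functions `g` of the time. -/
theorem result :
    (ExpTails (gaussianReal 0 1) 4 ∧ ∫ s, s ∂(gaussianReal 0 1) = 0 ∧
      ∫ s, (s - 0) ^ 2 ∂(gaussianReal 0 1) = 1) ∧
    ∀ (d : ℕ), 3 ≤ d →
    (∀ (σ : ℝ) (ξ : (Fin d → ℤ) → ℝ) (z : ℂ) (a : Fin d → ℤ), 0 < z.im →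
      ∃! u, IsGreen σ ξ z a u) ∧
    (∀ (z : ℂ) (s : ℝ), 0 < z.im → 0 < s →
      ∃! p : ℂ × ((Fin d → ℤ) → ℂ), IsBorn z s p.1 p.2) ∧
    (∀ (σ : ℝ) (ξ : (Fin d → ℤ) → ℝ) (a : Fin d → ℤ), ∃! ψ, IsEvolution σ ξ a ψ) ∧
    ((∀ E : ℝ, 0 ≤ ρ1 d E ∧ ρ1 d E ≤ ρ0 d E) ∧
      (∀ δ : ℝ, 0 < δ → ∃ c : ℝ, 0 < c ∧ ∀ E : ℝ, |E| ≤ 2 * d - δ → c ≤ ρ1 d E) ∧
      ∫ E in (-(3 * d : ℝ))..(3 * d), ρ0 d E = Real.pi) ∧
    ∀ A v c ε : ℝ, 0 < A → 0 < v → 0 < c → 0 < ε →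
      ∀ g : ℝ → ℝ, Continuous g → (∃ l : ℝ, Tendsto (fun τ => Real.exp τ * g τ) atTop (𝓝 l)) →
      ∃ s0 : ℝ, 0 < s0 ∧
      ∀ (μ : Measure ℝ) [IsProbabilityMeasure μ], ExpTails μ A →
      ∀ M V : ℝ, ∫ s, s ∂μ = M → ∫ s, (s - M) ^ 2 ∂μ = V → v ≤ V →
      ∀ σ : ℝ, 0 < |σ| → |σ| ≤ s0 → ∀ t T : ℝ, t = |σ| ^ (81 / 40 : ℝ) → T = 1 / (2 * t) →
      ∃ G : Set ((Fin d → ℤ) → ℝ), MeasurableSet G ∧
        1 - Real.exp (-|σ| ^ (-(1 / 160) : ℝ)) ≤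
          (Measure.infinitePi fun _ : Fin d → ℤ => μ).real G ∧
        ∀ ξ ∈ G, ∀ a : Fin d → ℤ, ‖a‖ ≤ Real.exp (|σ| ^ (-(1 / 160) : ℝ)) →
          (∀ (E : ℝ) (u : (Fin d → ℤ) → ℂ), IsGreen σ ξ (E + t * Complex.I) a u →
            (∀ (γ : ℂ) (w : (Fin d → ℤ) → ℂ),
              IsBorn ((E - σ * M : ℝ) + t * Complex.I) (σ ^ 2 * V) γ w → c ≤ γ.im →
              ∀ q : Fin d → ℝ,
              ‖t * posHat u a q - (t / (σ ^ 2 * V) * (stepHat (σ ^ 2 * V) w q /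
                (1 - stepHat (σ ^ 2 * V) w q)) : ℝ)‖ ≤ |σ| ^ (1 / 100 : ℝ)) ∧
            (c ≤ ρ0 d E → ∀ κ : Fin d → ℝ, ∑ i, κ i ^ 2 ≤ |σ| ^ (-(1 / 500) : ℝ) →
              ‖t * posHat u a (fun i => κ i * Real.sqrt (t * (σ ^ 2 * V))) -
                (profile d (∑ i, κ i ^ 2) E : ℝ)‖ ≤ |σ| ^ (1 / 200 : ℝ))) ∧
          (∀ ψ : ℝ → (Fin d → ℤ) → ℂ, IsEvolution σ ξ a ψ →
            ∀ κ : Fin d → ℝ, ∑ i, κ i ^ 2 ≤ |σ| ^ (-(1 / 500) : ℝ) →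
            ‖(∫ τ in Set.Ioi (0 : ℝ), (g τ : ℂ) *
                posHat (ψ (T * τ)) a (fun i => κ i * Real.sqrt (t * (σ ^ 2 * V)))) -
              (∫ τ in Set.Ioi (0 : ℝ), g τ * heat d (∑ i, κ i ^ 2) τ : ℝ)‖ ≤
              ε) := by
  have hO : Pool.Agent.W788.BK.S_OSC := Pool.Agent.W918.BK.Osc.osc
  refine ⟨⟨gauss_tails, gauss_mean, gauss_var⟩, fun d hd => ⟨?_, ?_, ?_, ⟨?_, ?_, ?_⟩, ?_⟩⟩
  · intro σ ξ z a hz
    obtain ⟨u, hu⟩ := Pool.Agent.TH791.QD.GS.exists (fun x : Fin d → ℤ => σ * ξ x) z hz a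
    exact ⟨u, (green_iff σ ξ z a u).2 hu, fun v hv =>
      ((green_iff σ ξ z a v).1 hv).unique hz hu⟩
  · intro z s hz hs
    obtain ⟨γ, hγ, w, hw, hw0⟩ := Pool.Agent.TH791.QD.born d z s hz hs
    refine ⟨(γ, w), ⟨hγ, (green0_iff _ _ _).2 hw, hw0⟩, ?_⟩
    rintro ⟨γ', w'⟩ ⟨h1, h2, h3⟩
    simp only at h1 h2 h3
    have h4 := Pool.Agent.TH791.QD.born_unique z s hz hs γ' γ h1 hγ w' w
      ((green0_iff _ _ _).1 h2) h3 hw hw0
    subst h4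
    have h5 : w' = w := ((green0_iff _ _ _).1 h2).unique (by simp; positivity) hw
    rw [h5]
  · intro σ ξ a
    refine ⟨_, (evo_iff σ ξ a _).2 (Pool.Agent.TH791.QD.ev_evo (fun x => σ * ξ x) a),
      fun ψ hψ => ?_⟩
    exact ((evo_iff σ ξ a ψ).1 hψ).unique (Pool.Agent.TH791.QD.ev_evo (fun x => σ * ξ x) a)
  · exact fun E => Pool.Agent.TH791.QD.nn_im hO hd E
  · exact fun δ hδ => Pool.Agent.TH791.QD.nn1_pos hO d hd δ hδ
  · exact Pool.Agent.TH791.QD.nn0_int hO hd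
  · intro A v c ε hA hv hc hε g hg hl
    obtain ⟨l, hl⟩ := hl
    obtain ⟨s0, hs0, h⟩ := Pool.Agent.TH791.QD.finalU d hd A v c ε hA hv hc hε g hg l hl
    refine ⟨s0, hs0, ?_⟩
    intro μ hμ htail M V hM hV hvV σ hσ hσ0 t T ht hT
    obtain ⟨G, hG, hP, hb⟩ := h μ hμ htail M V hM hV hvV σ hσ hσ0 t ht
    refine ⟨G, hG, hP, fun ξ hξ a ha => ?_⟩
    obtain ⟨h1, h2⟩ := hb ξ hξ a ha
    refine ⟨fun E u hu => ?_, ?_⟩
    · obtain ⟨h3, h4⟩ := h1 E u ((green_iff _ _ _ _ _).1 hu)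
      refine ⟨fun γ w hw hγ q => ?_, fun hE κ hκ => ?_⟩
      · exact h3 γ hγ w ((green0_iff _ _ _).1 hw.2.1) hw.2.2 q
      · exact h4 hE κ hκ
    · intro ψ hψ κ hκ
      have h5 := h2 ψ ((evo_iff σ ξ a ψ).1 hψ) κ hκ
      rw [hT]
      exact h5

end Pool.Agent.Results.MP_1906c1_mp.GaussianQuantumDiffusion
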