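import Pool.Agent.TH409.ZV.All

/-!
# No ballistic transport in the Anderson model, at any disorder

`H_σ = Δ + σ ξ` on `ℓ²(ℤ^d)`, `(Δψ)(x) = ∑_{|y-x|=1} ψ(y)`, `ξ(x)` iid with a law of bounded density, for
instance standard Gaussian, `σ ≠ 0` arbitrary. A particle started at the origin moves slower than
ballistically, `E ⟨x²⟩_t / t² → 0`, and the time average of the velocity tends to zero in mean square
for every measurable choice `ψ(ξ)` of the initial state (so also for initial states in the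
continuous or in the absolutely continuous subspace, if there is one).

The starting library `Pool/Agent/H5R2/NB` proves the first part (it is not used by a hand-in for
this statement); the second part combines it with `Pool/Agent/H5R2/NBA` (where the analogous
statement is proved for absolutely continuous states and arbitrary laws).
-/

set_option autoImplicit false

open MeasureTheory Filter Topology ProbabilityTheory
open scoped BigOperators ENNReal NNReal InnerProductSpace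

namespace Pool.Agent.Results.MP_1906c1_mp.NoBallisticTransport

/-- `ℓ²(ℤ^d)` -/
abbrev L2 (d : ℕ) : Type := lp (fun _ : Fin d → ℤ => ℂ) 2

/-- `(H_σ u)(x) = ∑_{|y-x|=1} u(y) + σ ξ(x) u(x)` -/
noncomputable def H {d : ℕ} (σ : ℝ) (ξ : (Fin d → ℤ) → ℝ) (u : (Fin d → ℤ) → ℂ)
    (x : Fin d → ℤ) : ℂ :=
  (∑ i : Fin d, (u (x + Pi.single i 1) + u (x - Pi.single i 1))) + ((σ * ξ x : ℝ) : ℂ) * u x

/-- `U t = e^{-itH_σ}`: norm preserving maps of `ℓ²(ℤ^d)` with `U 0 = 1` and `i ∂_t (U_t u) = H_σ U_t u`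
at every site -/
structure IsPropagator {d : ℕ} (σ : ℝ) (ξ : (Fin d → ℤ) → ℝ) (U : ℝ → L2 d → L2 d) : Prop where
  zero : ∀ u, U 0 u = u
  norm : ∀ t u, ‖U t u‖ = ‖u‖
  schrodinger : ∀ u t x, HasDerivAt (fun s => (U s u) x)
    (-Complex.I * H σ ξ (fun k => (U t u) k) x) t

/-- `v` is the velocity operator `i[H_σ, x_i]`, `(v u)(x) = i (u(x+e_i) - u(x-e_i))` -/
def IsVelocity {d : ℕ} (i : Fin d) (v : L2 d → L2 d) : Prop :=
  ∀ u x, (v u) x = Complex.I * (u (x + Pi.single i 1) - u (x - Pi.single i 1))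

/-- the law of iid variables with law `μ` on `ℤ^d` -/
noncomputable def iid (d : ℕ) (μ : Measure ℝ) : Measure ((Fin d → ℤ) → ℝ) :=
  Measure.infinitePi fun _ => μ

/-- `μ` has a bounded density -/
def BoundedDensity (μ : Measure ℝ) : Prop := ∃ C : ℝ≥0, μ ≤ C • volume

/-- the mean square displacement at time `t` of a particle started at the origin,
`E ∑_x |x|² |(e^{-itH_σ} δ_0)(x)|²` -/
noncomputable def meanSquareDisplacement {d : ℕ} (μ : Measure ℝ)
    (U : ((Fin d → ℤ) → ℝ) → ℝ → L2 d → L2 d) (t : ℝ) : ℝ≥0∞ :=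
  ∫⁻ ξ, ∑' x : Fin d → ℤ, ENNReal.ofReal (∑ i : Fin d, (x i : ℝ) ^ 2) *
    ‖(U ξ t (lp.single 2 0 (1 : ℂ))) x‖ₑ ^ 2 ∂(iid d μ)

/-- the time average over `[0,T]` of the velocity at time `s`, `U_{-s} v U_s`, applied to `u` -/
noncomputable def average {d : ℕ} (U : ℝ → L2 d → L2 d) (v : L2 d → L2 d) (T : ℝ)
    (u : L2 d) : L2 d :=
  ((T : ℂ)⁻¹) • ∫ s in (0 : ℝ)..T, U (-s) (v (U s u))

/-- the mean square of the averaged velocity in the states `ψ(ξ)` -/
noncomputable def meanSquare {d : ℕ} (μ : Measure ℝ)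
    (U : ((Fin d → ℤ) → ℝ) → ℝ → L2 d → L2 d) (v : L2 d → L2 d)
    (ψ : ((Fin d → ℤ) → ℝ) → L2 d) (T : ℝ) : ℝ≥0∞ :=
  ∫⁻ ξ, ‖average (U ξ) v T (ψ ξ)‖ₑ ^ 2 ∂(iid d μ)

open Pool.Agent.H5R2.NB

theorem H_eq {d : ℕ} (σ : ℝ) (ξ : (Fin d → ℤ) → ℝ) (u : (Fin d → ℤ) → ℂ) (x : Fin d → ℤ) :
    H σ ξ u x = hopf 1 u x + (((fun x => σ * ξ x) x : ℝ) : ℂ) * u x := by
  unfold H hopf
  simp

theorem sol_of_prop {d : ℕ} {σ : ℝ} {ξ : (Fin d → ℤ) → ℝ} {U : ℝ → L2 d → L2 d}
    (hU : IsPropagator σ ξ U) (u : L2 d) :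
    IsSol 1 (fun x => σ * ξ x) (fun t => U t u) (fun _ => 0) := by
  refine ⟨fun T => ⟨‖u‖, fun t _ => (hU.norm t u).le⟩, fun t x => ?_⟩
  have h := hU.schrodinger u t x
  rw [H_eq] at h
  simpa using h

theorem prop_of_grp {d : ℕ} {σ : ℝ} {ξ : (Fin d → ℤ) → ℝ}
    {W : UG (Pool.Agent.H5R2.NB.L2 (Site d))} (hW : IsGrp 1 (fun x => σ * ξ x) W) :
    IsPropagator σ ξ (fun t u => W.U t u) := by
  refine ⟨W.zero', W.norm', fun u t x => ?_⟩
  have h := (hW u).2 t x
  rw [H_eq]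
  simpa using h

theorem prop_eq {d : ℕ} {σ : ℝ} {ξ : (Fin d → ℤ) → ℝ} {W : UG (Pool.Agent.H5R2.NB.L2 (Site d))}
    (hW : IsGrp 1 (fun x => σ * ξ x) W) {U : ℝ → L2 d → L2 d}
    (hU : IsPropagator σ ξ U) (t : ℝ) (u : L2 d) : U t u = W.U t u := by
  have h := Pool.Agent.H5R2.NB.ALL.a_UN d 1 _ W hW (fun t => U t u) (fun _ => 0)
    continuous_const (sol_of_prop hU u) t
  simpa [hU.zero u] using h

theorem evo_of_prop {d : ℕ} {σ : ℝ} {ξ : (Fin d → ℤ) → ℝ} {U : ℝ → L2 d → L2 d}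
    (hU : IsPropagator σ ξ U) :
    GEN.IsEvo 1 (fun x => σ * ξ x) (fun t x => (U t (lp.single 2 0 (1 : ℂ))) x) := by
  refine ⟨?_, fun t x => ?_, fun t => ?_⟩
  · rw [hU.zero]
    exact GEN.dl_coe
  · have h := hU.schrodinger (lp.single 2 0 (1 : ℂ)) t x
    rw [H_eq] at h
    exact h
  · have h := GEN.hasSum_sq (U t (lp.single 2 0 (1 : ℂ)))
    have h1 : ‖(lp.single 2 0 (1 : ℂ) : L2 d)‖ = 1 := GEN.norm_dl 0
    rw [hU.norm, h1, one_pow] at h
    exact h

/-- **Theorem.** The standard Gaussian law has a bounded density. For every law `μ` with a bounded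
density, every `σ ≠ 0` and every dimension `d`: for every potential the unitary group of
`H_σ = Δ + σ ξ` exists and is unique; `E ⟨x²⟩_t / t² → 0` for the particle started at the origin; and
for every measurable choice of a vector `ψ(ξ)`, `‖ψ(ξ)‖ ≤ 1`, the time average over `[0,T]` of the
velocity applied to `ψ(ξ)` tends to zero in mean square as `T → ∞`. -/
theorem result : BoundedDensity (gaussianReal 0 1) ∧
    ∀ (d : ℕ) (μ : Measure ℝ) [IsProbabilityMeasure μ], BoundedDensity μ → ∀ σ : ℝ, σ ≠ 0 →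
      (∀ ξ : (Fin d → ℤ) → ℝ, ∃! U : ℝ → L2 d → L2 d, IsPropagator σ ξ U) ∧
      ∀ U : ((Fin d → ℤ) → ℝ) → ℝ → L2 d → L2 d, (∀ ξ, IsPropagator σ ξ (U ξ)) →
        Tendsto (fun t : ℝ => meanSquareDisplacement μ U t / ENNReal.ofReal (t ^ 2)) atTop
          (𝓝 0) ∧
        ∀ i : Fin d, ∃ v : L2 d → L2 d, IsVelocity i v ∧
          ∀ ψ : ((Fin d → ℤ) → ℝ) → L2 d, AEStronglyMeasurable ψ (iid d μ) →
            (∀ ξ, ‖ψ ξ‖ ≤ 1) → Tendsto (meanSquare μ U v ψ) atTop (𝓝 0) := by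
  refine ⟨LAW.gaussian_le, fun d μ _ ⟨C, hC⟩ σ hσ => ⟨fun ξ => ?_, fun U hU => ⟨?_, fun i => ?_⟩⟩⟩
  · obtain ⟨W, hW⟩ := ALL.a_EX d 1 (fun x => σ * ξ x)
    refine ⟨fun t u => W.U t u, prop_of_grp hW, fun U hU => ?_⟩
    funext t u
    exact prop_eq hW hU t u
  · have h := LAW.map_affine_le μ C hC 0 σ hσ
    have hg : Measurable (fun r : ℝ => 0 + σ * r) := by fun_prop
    exact GEN.main ALL.a_EX ALL.a_UN ALL.a_CV ALL.a_MAIN 1 μ (fun r => 0 + σ * r) hg _ h
      (fun ξ t x => (U ξ t (lp.single 2 0 (1 : ℂ))) x)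
      (fun ξ => by simpa only [zero_add] using evo_of_prop (hU ξ))
  · choose ev hev using fun V : Site d → ℝ => ALL.a_EX d 1 V
    obtain ⟨v, hv⟩ := (t_OPS d).2.2 1 i
    refine ⟨v, fun u x => ?_, fun ψ hψ hψ1 => ?_⟩
    · rw [hv u x]
      push_cast
      ring
    · set e : ((Fin d → ℤ) → ℝ) ≃ᵐ ((Fin d → ℤ) → ℝ) := MeasurableEquiv.smul₀ σ hσ with he
      have hei : ∀ ξ, e ξ = fun x => σ * ξ x := fun ξ => rfl
      have hUe : ∀ ξ t u, U ξ t u = (ev (e ξ)).U t u := fun ξ t u =>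
        prop_eq (by rw [hei]; exact hev _) (hU ξ) t u
      have hg : Measurable (fun r : ℝ => σ * r) := by fun_prop
      have hpm : IsProbabilityMeasure (μ.map fun r : ℝ => σ * r) :=
        Measure.isProbabilityMeasure_map hg.aemeasurable
      have hmap : (iid d μ).map e = PP d (μ.map fun r : ℝ => σ * r) := by
        unfold PP iid
        exact Measure.infinitePi_map_pi (μ := fun _ : Site d => μ) (fun _ => hg)
      have hb := LAW.map_affine_le μ C hC 0 σ hσ
      simp only [zero_add] at hb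
      have key := Pool.Agent.TH409.ZV.fin d 1 ev hev (μ.map fun r : ℝ => σ * r) _ hb i v hv
        (fun V => ψ (e.symm V)) 1
        (by
          rw [← hmap]
          have : AEStronglyMeasurable (ψ ∘ e.symm) ((iid d μ).map e) := by
            refine AEStronglyMeasurable.comp_aemeasurable ?_ e.symm.measurable.aemeasurable
            rw [Measure.map_map e.symm.measurable e.measurable]
            simpa using hψ
          exact this)
        (fun V => hψ1 _)
      refine key.congr fun T => ?_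
      rw [← hmap, e.measurableEmbedding.lintegral_map]
      refine lintegral_congr fun ξ => ?_
      rw [e.symm_apply_apply]
      unfold average
      simp only [hUe]

end Pool.Agent.Results.MP_1906c1_mp.NoBallisticTransport
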