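import Pool.Agent.TH980.SH.Main

/-!
# Non-summable random hopping gives purely continuous spectrum at every disorder

`H = T0 + A + V` on `ℓ²(ℤ^d)`: `T0` is a translation invariant symmetric finite range hopping (for
instance the lattice Laplacian), `A(y,w) = s_{yw} κ(y-w)` has independent fair signs `s_{yw}` and a
fixed symmetric profile `κ` with `κ(0) = 0`, and `V` is iid centred Gaussian with variance `v ≠ 0`
(so `V = σ ξ` with `v = σ²`).

If `∑ |z|^δ κ(z)² < ∞` for some `δ > 0` and `∑ |κ(z)| = ∞`, then almost surely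

* for every complex number `z`, the equation `H ψ = z ψ` has no square summable solution except
  `0`: `H` is essentially self-adjoint on finitely supported functions and has no eigenvalue;
* for every real `E` and every `η > 0` there is a finitely supported `f ≠ 0` with
  `‖(H - E) f‖² ≤ η ‖f‖²`: the spectrum is the whole line.

So the spectrum is `ℝ` and purely continuous, at every disorder strength, however small the
hopping `A` is.  Instance: the lattice Laplacian with `κ(z) = ε |z|^{-α}`, for every `ε ≠ 0` and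
every `d/2 < α ≤ d`, the critical exponent `α = d` included.
-/

set_option autoImplicit false

namespace Pool.Agent.Results.MP_1906c1_mp.NonSummableHopping

open MeasureTheory H10PL Pool.Agent.TH980.PL Pool.Agent.TH980.SH

theorem result (d : ℕ) (v : NNReal) (hv : v ≠ 0) :
    (∀ (T0 : (Fin d → ℤ) → (Fin d → ℤ) → ℝ) (κ : (Fin d → ℤ) → ℝ) (ρ0 b δ : ℝ),
      Adm T0 κ ρ0 b → (∀ a y w, T0 (y + a) (w + a) = T0 y w) →
      0 < δ → (Summable fun z : Fin d → ℤ => ‖z‖ ^ δ * κ z ^ 2) →
      (¬ Summable fun z : Fin d → ℤ => |κ z|) →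
      ∀ᵐ q ∂((PV d v).prod (Ps d)), NoSol T0 κ q.2 q.1 ∧ FullSpec T0 κ q.2 q.1) ∧
    (0 < d → ∀ α ε : ℝ, (d : ℝ) / 2 < α → α ≤ d → ε ≠ 0 →
      ∀ᵐ q ∂((PV d v).prod (Ps d)), NoSol (Lap d) (fun z => ε * ‖z‖ ^ (-α)) q.2 q.1 ∧
        FullSpec (Lap d) (fun z => ε * ‖z‖ ^ (-α)) q.2 q.1) :=
  ⟨fun _ _ _ _ _ h hT hδ hs hns => main_sharp h hT v hv hδ hs hns,
    fun hd α ε h1 h2 hε => power_main hd v hv α ε h1 h2 hε⟩

end Pool.Agent.Results.MP_1906c1_mp.NonSummableHopping
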